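import Pool.Agent.Helper93.GEO.Merge

open Pool.Agent.Helper30.GEO

namespace Pool.Agent.Helper93.GEO

open Finset Classical

section bt

variable {V : Type*} {G : SimpleGraph V} (hg : Geo G)

/-- `q` is on the geodesic from `v` to `u` -/
def Bt (G : SimpleGraph V) (v q u : V) : Prop := G.dist v q + G.dist q u = G.dist v u

/-- no isometric cycle longer than `2 * R + 1` -/
def Short (G : SimpleGraph V) (R : ℕ) : Prop :=
  ∀ n : ℕ, 2 * R + 1 < n →
    ¬ ∃ f : ZMod n → V, ∀ i j, G.dist (f i) (f j) = min (i - j).val (j - i).val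

include hg

theorem Bt.par {v q u : V} (h : Bt G v q u) (hne : q ≠ u) :
    Bt G v q (par G v u) ∧ G.dist q (par G v u) + 1 = G.dist q u := by
  obtain ⟨p1, p2⟩ := hg.par_spec hne
  have t := hg.tri v q (Helper30.GEO.par G q u)
  have l := hg.adj_le (r := v) p1
  unfold Bt at h ⊢
  have e := hg.par_eq (r := v) p1 (by omega)
  rw [e]
  constructor <;> omega

theorem Bt.sub {v q : V} : ∀ (n : ℕ) (z u : V), G.dist z u = n → Bt G v q u → Bt G v z u →
    G.dist v q ≤ G.dist v z → Bt G v q z := by
  intro n
  induction n with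
  | zero =>
    intro z u h h1 h2 h3
    rw [hg.eq_of_zero h]
    exact h1
  | succ n ih =>
    intro z u h h1 h2 h3
    have hz : z ≠ u := by
      rintro rfl
      simp at h
    have hq : q ≠ u := by
      rintro rfl
      unfold Bt at h2
      omega
    have b1 := Bt.par hg h1 hq
    have b2 := Bt.par hg h2 hz
    exact ih z _ (by omega) b1.1 b2.1 h3

theorem Bt.eq {v q z u : V} (h1 : Bt G v q u) (h2 : Bt G v z u)
    (h3 : G.dist v q = G.dist v z) : q = z := by
  have := Bt.sub hg (G.dist z u) z u rfl h1 h2 h3.le
  unfold Bt at this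
  exact hg.eq_of_zero (by omega)

theorem Bt.trans {v q z u : V} (h1 : Bt G v q z) (h2 : Bt G v z u) : Bt G v q u := by
  unfold Bt at *
  have t1 := hg.tri q z u
  have t2 := hg.tri v q u
  omega

theorem merge_vertex {R : ℕ} (hR : 1 ≤ R) (hsh : Short G R) {v y y' : V} (hy : G.Adj y y')
    (hd : G.dist v y = G.dist v y') :
    ∃ z, Bt G v z y ∧ Bt G v z y' ∧ G.dist z y = G.dist z y' ∧ G.dist z y ≤ R := by
  obtain ⟨m, hm⟩ : ∃ m, m = G.dist v y := ⟨_, rfl⟩
  have hmm : (par G v)^[m] y = (par G v)^[m] y' := by
    have e1 := itA hg hm.symm m le_rfl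
    have e2 := itA hg (hd ▸ hm.symm) m le_rfl
    rw [Nat.sub_self] at e1 e2
    rw [← hg.eq_of_zero e1, ← hg.eq_of_zero e2]
  have hex : ∃ j, (par G v)^[j] y = (par G v)^[j] y' := ⟨m, hmm⟩
  obtain ⟨j, hj, hmin⟩ : ∃ j, ((par G v)^[j] y = (par G v)^[j] y') ∧
      ∀ i < j, ¬ ((par G v)^[i] y = (par G v)^[i] y') :=
    ⟨Nat.find hex, Nat.find_spec hex, fun i hi => Nat.find_min hex hi⟩
  have hjm : j ≤ m := by
    by_contra h
    push Not at h
    exact hmin m h hmm
  have hjR : j ≤ R := by
    by_cases hj2 : 2 ≤ j
    · have M := merge hg hy hd hj2 (by omega) hj (hmin (j - 1) (by omega))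
      by_contra hcon
      exact hsh (2 * j + 1) (by omega) M.1
    · omega
  have e1 := itPath hg (x := v) (w := y) rfl 0 j (by omega)
  have e2 := itPath hg (x := v) (w := y') rfl 0 j (by omega)
  have e3 := itA hg (x := v) (w := y) rfl j (by omega)
  rw [Nat.zero_add] at e1 e2
  simp only [Function.iterate_zero, id_eq] at e1 e2
  rw [← hj] at e2
  refine ⟨(par G v)^[j] y, ?_, ?_, by omega, by omega⟩
  · unfold Bt; omega
  · unfold Bt; omega

theorem common {R : ℕ} (hR : 1 ≤ R) (hsh : Short G R) (v : V) (l : ℕ → V) :
    ∀ n, (∀ i < n, G.Adj (l i) (l (i + 1))) →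
      ∃ q, (∀ s ≤ n, Bt G v q (l s)) ∧ ((∃ s ≤ n, q = l s) ∨
        ∃ t < n, G.dist q (l t) = G.dist q (l (t + 1)) ∧ G.dist q (l t) ≤ R) := by
  intro n
  induction n with
  | zero =>
    intro _
    refine ⟨l 0, ?_, Or.inl ⟨0, le_rfl, rfl⟩⟩
    intro s hs
    have : s = 0 := by omega
    subst this
    unfold Bt
    simp
  | succ n ih =>
    intro hadj
    obtain ⟨q, hq, hor⟩ := ih (fun i hi => hadj i (by omega))
    have ha := hadj n (by omega)
    have hor' : (∃ s ≤ n + 1, q = l s) ∨
        ∃ t < n + 1, G.dist q (l t) = G.dist q (l (t + 1)) ∧ G.dist q (l t) ≤ R := by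
      rcases hor with ⟨s, h1, h2⟩ | ⟨t, h1, h2⟩
      · exact Or.inl ⟨s, by omega, h2⟩
      · exact Or.inr ⟨t, by omega, h2⟩
    have ext : Bt G v q (l (n + 1)) → ∀ s ≤ n + 1, Bt G v q (l s) := by
      intro h s hs
      rcases Nat.lt_or_ge s (n + 1) with h' | h'
      · exact hq s (by omega)
      · have : s = n + 1 := by omega
        subst this
        exact h
    have hqn := hq n le_rfl
    have l1 := hg.adj_le (r := v) ha
    have l2 := hg.adj_le (r := v) ha.symm
    by_cases hup : G.dist v (l (n + 1)) = G.dist v (l n) + 1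
    · refine ⟨q, ext ?_, hor'⟩
      have l3 := hg.adj_le (r := q) ha.symm
      have t := hg.tri v q (l (n + 1))
      unfold Bt at hqn ⊢
      omega
    · by_cases hdown : G.dist v (l (n + 1)) + 1 = G.dist v (l n)
      · have hpe : par G v (l n) = l (n + 1) := hg.par_eq ha hdown
        by_cases hqe : q = l n
        · -- the new vertex is l (n + 1)
          have b1 : Bt G v (l (n + 1)) (l n) := by
            unfold Bt
            rw [SimpleGraph.dist_eq_one_iff_adj.2 ha.symm]
            exact hdown
          refine ⟨l (n + 1), ?_, Or.inl ⟨n + 1, le_rfl, rfl⟩⟩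
          intro s hs
          rcases Nat.lt_or_ge s (n + 1) with h' | h'
          · have := hq s (by omega)
            rw [hqe] at this
            exact Bt.trans hg b1 this
          · have : s = n + 1 := by omega
            subst this
            unfold Bt
            simp
        · have := (Bt.par hg hqn hqe).1
          rw [hpe] at this
          exact ⟨q, ext this, hor'⟩
      · have hh : G.dist v (l n) = G.dist v (l (n + 1)) := by omega
        obtain ⟨z, z1, z2, z3, z4⟩ := merge_vertex hg hR hsh ha hh
        rcases Nat.lt_or_ge (G.dist v z) (G.dist v q) with h' | h'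
        · -- z is an ancestor of q
          have b1 : Bt G v z q := Bt.sub hg _ q (l n) rfl z1 hqn h'.le
          refine ⟨z, ?_, Or.inr ⟨n, by omega, z3, z4⟩⟩
          intro s hs
          rcases Nat.lt_or_ge s (n + 1) with h'' | h''
          · exact Bt.trans hg b1 (hq s (by omega))
          · have : s = n + 1 := by omega
            subst this
            exact z2
        · have b1 : Bt G v q z := Bt.sub hg _ z (l n) rfl hqn z1 h'
          exact ⟨q, ext (Bt.trans hg b1 z2), hor'⟩

/-- if all distances are at most `D` and `x`, `y` are at distance `D`, then the `m`-th vertex of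
the geodesic from `x` to `y` is at distance at most `max m (D - m) + 2 * R - 2` from every
vertex -/
theorem center {R D : ℕ} (hR : 1 ≤ R) (hsh : Short G R) (hD : ∀ u v, G.dist u v ≤ D) {x y : V}
    (hxy : G.dist y x = D) {m : ℕ} (hm : m ≤ D) (v : V) :
    G.dist v ((par G y)^[m] x) + 2 ≤ max m (D - m) + 2 * R := by
  obtain ⟨l, hl⟩ : ∃ l : ℕ → V, l = fun s => (par G y)^[s] x := ⟨_, rfl⟩
  have hly : ∀ s ≤ D, G.dist y (l s) = D - s := by
    intro s hs
    rw [hl]
    exact itA hg hxy s hs
  have hll : ∀ s t, s + t ≤ D → G.dist (l (s + t)) (l s) = t := by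
    intro s t hst
    rw [hl]
    exact itPath hg hxy s t hst
  have hadj : ∀ i < D, G.Adj (l i) (l (i + 1)) := by
    intro i hi
    rw [hl]
    exact itAdj hg hxy i hi
  have hl0 : l 0 = x := by rw [hl]; rfl
  have hlD : l D = y := by
    have := hly D le_rfl
    rw [Nat.sub_self] at this
    exact (hg.eq_of_zero this).symm
  have hlm : (par G y)^[m] x = l m := by rw [hl]
  rw [hlm]
  have hlx : ∀ s ≤ D, G.dist x (l s) = s := by
    intro s hs
    have := hll 0 s (by omega)
    rw [Nat.zero_add, hl0, SimpleGraph.dist_comm] at this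
    exact this
  have hls : ∀ s t, s ≤ t → t ≤ D → G.dist (l s) (l t) = t - s := by
    intro s t h1 h2
    have := hll s (t - s) (by omega)
    rw [Nat.add_sub_cancel' h1, SimpleGraph.dist_comm] at this
    exact this
  obtain ⟨q, hq, hor⟩ := common hg hR hsh v l D hadj
  have hqx := hq 0 (by omega)
  have hqy := hq D le_rfl
  rw [hl0] at hqx
  rw [hlD] at hqy
  have dx := hD v x
  have dy := hD v y
  unfold Bt at hqx hqy
  have tc := hg.tri v q (l m)
  by_cases hin : ∃ s ≤ D, q = l s
  · obtain ⟨s, h1, h2⟩ := hin
    have e1 := hlx s h1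
    have e2 := hly s h1
    rw [← h2] at e1 e2
    have c1 := SimpleGraph.dist_comm (G := G) (u := x) (v := q)
    have c2 := SimpleGraph.dist_comm (G := G) (u := y) (v := q)
    rcases Nat.le_total m s with h' | h'
    · have e3 := hls m s h' h1
      rw [← h2] at e3
      have c3 := SimpleGraph.dist_comm (G := G) (u := l m) (v := q)
      omega
    · have e3 := hls s m h' hm
      rw [← h2] at e3
      omega
  · obtain ⟨t, t1, t2, t3⟩ : ∃ t < D, G.dist q (l t) = G.dist q (l (t + 1)) ∧
        G.dist q (l t) ≤ R := by
      rcases hor with h | h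
      · exact absurd h hin
      · exact h
    have c1 := SimpleGraph.dist_comm (G := G) (u := x) (v := q)
    have c2 := SimpleGraph.dist_comm (G := G) (u := y) (v := q)
    -- lower bound for the distance to x
    have bx : t + 2 ≤ G.dist q x + G.dist q (l t) := by
      have e1 := hlx (t + 1) (by omega)
      have tr := hg.tri x q (l (t + 1))
      by_contra hcon
      have heq : Bt G x q (l (t + 1)) := by unfold Bt; omega
      apply hin
      refine ⟨G.dist x q, by omega, ?_⟩
      have e2 := hlx (G.dist x q) (by omega)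
      have e3 := hls (G.dist x q) (t + 1) (by omega) (by omega)
      exact Bt.eq hg heq (by unfold Bt; omega) e2.symm
    have by' : D + 1 ≤ t + G.dist q y + G.dist q (l t) := by
      have e1 := hly t (by omega)
      have tr := hg.tri y q (l t)
      by_contra hcon
      have heq : Bt G y q (l t) := by unfold Bt; omega
      apply hin
      refine ⟨D - G.dist y q, by omega, ?_⟩
      have e2 := hly (D - G.dist y q) (by omega)
      have e3 := hls t (D - G.dist y q) (by omega) (by omega)
      rw [SimpleGraph.dist_comm] at e3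
      exact Bt.eq hg heq (by unfold Bt; omega) (by omega)
    rcases Nat.lt_or_ge t m with h' | h'
    · have e3 := hls (t + 1) m (by omega) hm
      have tq := hg.tri q (l (t + 1)) (l m)
      omega
    · have e3 := hls m t h' (by omega)
      rw [SimpleGraph.dist_comm] at e3
      have tq := hg.tri q (l t) (l m)
      omega

theorem selfcentered {R D : ℕ} (hR : 1 ≤ R) (hsh : Short G R) (hD : ∀ u v, G.dist u v ≤ D)
    (hself : ∀ u, ∃ v, G.dist u v = D) : D ≤ 4 * R - 3 := by
  obtain ⟨y⟩ := hg.conn.nonempty
  obtain ⟨x, hx⟩ := hself y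
  have h := fun v => center hg hR hsh hD hx (m := D / 2) (by omega) v
  obtain ⟨v, hv⟩ := hself ((par G y)^[D / 2] x)
  have := h v
  rw [SimpleGraph.dist_comm, hv] at this
  omega

end bt

section count

variable {V : Type*} [Fintype V] {G : SimpleGraph V} (hg : Geo G)
include hg

theorem sphere_le {k : ℕ} (hreg : ∀ v, (univ.filter (fun w => G.Adj v w)).card = k) (x : V) :
    ∀ i, (univ.filter (fun w => G.dist x w = i + 1)).card ≤ k * (k - 1) ^ i := by
  intro i
  induction i with
  | zero =>
    rw [pow_zero, mul_one, ← hreg x]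
    apply le_of_eq
    congr 1
    ext w
    simp only [mem_filter, mem_univ, true_and, Nat.zero_add]
    exact SimpleGraph.dist_eq_one_iff_adj
  | succ i ih =>
    have hu : univ.filter (fun w => G.dist x w = i + 1 + 1) ⊆
        (univ.filter (fun w => G.dist x w = i + 1)).biUnion
          (fun y => (univ.filter (fun w => G.Adj y w)).erase (par G x y)) := by
      intro w
      simp only [mem_filter, mem_univ, true_and, mem_biUnion, mem_erase]
      intro hw
      have hne : x ≠ w := by
        rintro rfl
        simp at hw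
      obtain ⟨p1, p2⟩ := hg.par_spec hne
      refine ⟨par G x w, by omega, ?_, p1.symm⟩
      intro hcon
      have hne' : x ≠ par G x w := by
        intro hh
        rw [← hh] at p2
        simp at p2
        omega
      have := (hg.par_spec hne').2
      rw [← hcon] at this
      omega
    refine (card_le_card hu).trans ?_
    refine (card_biUnion_le_card_mul _ _ (k - 1) ?_).trans ?_
    · intro y hy
      simp only [mem_filter, mem_univ, true_and] at hy
      have hne : x ≠ y := by
        rintro rfl
        simp at hy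
      rw [card_erase_of_mem, hreg y]
      simp only [mem_filter, mem_univ, true_and]
      exact (hg.par_spec hne).1
    · rw [pow_succ, ← mul_assoc]
      exact Nat.mul_le_mul_right _ ih

theorem moore_bound {k D : ℕ} (hreg : ∀ v, (univ.filter (fun w => G.Adj v w)).card = k)
    (hD : ∀ u v, G.dist u v ≤ D) :
    Fintype.card V ≤ 1 + k * ∑ i ∈ range D, (k - 1) ^ i := by
  obtain ⟨x⟩ := hg.conn.nonempty
  have h1 : (univ : Finset V).card =
      ∑ i ∈ range (D + 1), (univ.filter (fun w => G.dist x w = i)).card := by
    apply card_eq_sum_card_fiberwise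
    intro w _
    have := hD x w
    simp only [coe_range, Set.mem_Iio]
    omega
  rw [Finset.card_univ] at h1
  rw [h1, sum_range_succ']
  have h0 : (univ.filter (fun w => G.dist x w = 0)).card = 1 := by
    rw [card_eq_one]
    refine ⟨x, ?_⟩
    ext w
    simp only [mem_filter, mem_univ, true_and, mem_singleton]
    constructor
    · intro h
      exact (hg.eq_of_zero h).symm
    · rintro rfl
      simp
  rw [h0, mul_sum, add_comm]
  apply Nat.add_le_add_left
  apply sum_le_sum
  intro i _
  exact sphere_le hg hreg x i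

end count

end Pool.Agent.Helper93.GEO
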