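import Pool.Agent.Helper30.GEO.Core

open Pool.Agent.Helper30.GEO

namespace Pool.Agent.Helper93.GEO

variable {V : Type*} {G : SimpleGraph V} (hg : Geo G)
include hg

/-- depth of the iterated parents -/
theorem itA {x w : V} {m : ℕ} (hw : G.dist x w = m) :
    ∀ j, j ≤ m → G.dist x ((par G x)^[j] w) = m - j := by
  intro j
  induction j with
  | zero => intro _; simpa using hw
  | succ j ih =>
    intro hj
    have ih := ih (by omega)
    rw [Function.iterate_succ_apply']
    have hn : x ≠ (par G x)^[j] w := by
      intro h; rw [← h] at ih; simp at ih; omega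
    have := (hg.par_spec hn).2
    omega

theorem itAdj {x w : V} {m : ℕ} (hw : G.dist x w = m) :
    ∀ j, j < m → G.Adj ((par G x)^[j] w) ((par G x)^[j + 1] w) := by
  intro j hj
  rw [Function.iterate_succ_apply']
  refine (hg.par_spec ?_).1
  intro h
  have := itA hg hw j hj.le
  rw [← h] at this; simp at this; omega

theorem itPath {x w : V} {m : ℕ} (hw : G.dist x w = m) (a b : ℕ) (hab : a + b ≤ m) :
    G.dist ((par G x)^[a + b] w) ((par G x)^[a] w) = b := by
  have up : ∀ b, a + b ≤ m → G.dist ((par G x)^[a + b] w) ((par G x)^[a] w) ≤ b := by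
    intro b
    induction b with
    | zero => intro _; simp
    | succ b ih =>
      intro h
      have ih := ih (by omega)
      have q := itAdj hg hw (a + b) (by omega)
      have q' := hg.adj_le (r := (par G x)^[a] w) q.symm
      rw [SimpleGraph.dist_comm, SimpleGraph.dist_comm (v := (par G x)^[a + b] w)] at q'
      rw [← add_assoc]
      omega
  have u := up b hab
  have d1 := itA hg hw (a + b) hab
  have d2 := itA hg hw a (by omega)
  have t := hg.tri x ((par G x)^[a + b] w) ((par G x)^[a] w)
  omega

/-- two adjacent vertices at the same depth whose branches meet after exactly `j ≥ 2` steps: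
the cycle is isometric -/
theorem merge {x y y' : V} (hy : G.Adj y y') (hd : G.dist x y = G.dist x y') {j : ℕ}
    (hj2 : 2 ≤ j) (hjm : j ≤ G.dist x y) (hj : (par G x)^[j] y = (par G x)^[j] y')
    (hmin : ¬ ((par G x)^[j - 1] y = (par G x)^[j - 1] y')) :
    (∃ f : ZMod (2 * j + 1) → V, ∀ i i', G.dist (f i) (f i') = min (i - i').val (i' - i).val) ∧
      G.dist y ((par G x)^[j - 1] y') = j ∧
      G.dist ((par G x)^[j - 1] y) ((par G x)^[j - 1] y') = 2 := by
  obtain ⟨m, hm⟩ : ∃ m, m = G.dist x y := ⟨_, rfl⟩
  have hm' : G.dist x y' = m := by omega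
  have hAdj := fun w (hw : G.dist x w = m) => itAdj hg hw
  have hpath := fun w (hw : G.dist x w = m) => itPath hg hw
  set A : ℕ → V := fun i => (par G x)^[i] y with hAdef
  set B : ℕ → V := fun i => (par G x)^[i] y' with hBdef
  have hAB : A j = B j := hj
  let c : ℕ → V := fun i => if i % (2 * j + 1) ≤ j then A (j - i % (2 * j + 1))
    else B (i % (2 * j + 1) - j - 1)
  have hper : ∀ i, c (i + (2 * j + 1)) = c i := by
    intro i
    simp only [c, Nat.add_mod_right]
  have hadj : ∀ i, G.Adj (c i) (c (i + 1)) := by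
    intro i
    have hlt : i % (2 * j + 1) < 2 * j + 1 := Nat.mod_lt _ (by omega)
    by_cases hlast : i % (2 * j + 1) = 2 * j
    · have e : (i + 1) % (2 * j + 1) = 0 := by
        rw [Nat.add_mod, hlast]
        have : 1 % (2 * j + 1) = 1 := Nat.mod_eq_of_lt (by omega)
        rw [this]; simp
      simp only [c, e, hlast]
      rw [if_neg (by omega), if_pos (by omega)]
      rw [Nat.sub_zero, hAB]
      have := hAdj y' hm' (j - 1) (by omega)
      have e3 : 2 * j - j - 1 = j - 1 := by omega
      rw [e3]
      have e4 : j - 1 + 1 = j := by omega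
      rw [e4] at this
      exact this
    · have e : (i + 1) % (2 * j + 1) = i % (2 * j + 1) + 1 := by
        rw [Nat.add_mod]
        have : 1 % (2 * j + 1) = 1 := Nat.mod_eq_of_lt (by omega)
        rw [this]
        exact Nat.mod_eq_of_lt (by omega)
      simp only [c, e]
      rcases lt_trichotomy (i % (2 * j + 1)) j with h | h | h
      · rw [if_pos h.le, if_pos (by omega)]
        have := hAdj y hm.symm (j - (i % (2 * j + 1) + 1)) (by omega)
        have e4 : j - (i % (2 * j + 1) + 1) + 1 = j - i % (2 * j + 1) := by omega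
        rw [e4] at this
        exact this.symm
      · rw [if_pos h.le, if_neg (by omega), h]
        have e1 : j - j = 0 := by omega
        have e2 : j + 1 - j - 1 = 0 := by omega
        rw [e1, e2]
        exact hy
      · rw [if_neg (by omega), if_neg (by omega)]
        have := hAdj y' hm' (i % (2 * j + 1) - j - 1) (by omega)
        have e4 : i % (2 * j + 1) + 1 - j - 1 = i % (2 * j + 1) - j - 1 + 1 := by omega
        rw [e4]
        exact this
  have h0 : ∀ i ≤ 2 * j + 1, G.dist (c 0) (c i) = min i (2 * j + 1 - i) := by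
    intro i hi
    have ec0 : c 0 = A j := by
      simp [c]
    by_cases hl : i = 2 * j + 1
    · subst hl
      have : c (2 * j + 1) = c 0 := by
        have := hper 0
        rwa [zero_add] at this
      rw [this]; simp
    have e : i % (2 * j + 1) = i := Nat.mod_eq_of_lt (by omega)
    rw [ec0]
    simp only [c, e]
    by_cases h : i ≤ j
    · rw [if_pos h]
      have := hpath y hm.symm (j - i) i (by omega)
      have e2 : j - i + i = j := by omega
      rw [e2] at this
      simp only [hAdef]
      rw [this]; omega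
    · rw [if_neg h, hAB]
      have := hpath y' hm' (i - j - 1) (2 * j + 1 - i) (by omega)
      have e2 : i - j - 1 + (2 * j + 1 - i) = j := by omega
      rw [e2] at this
      simp only [hBdef]
      rw [this]; omega
  have e1 : 1 % (2 * j + 1) = 1 := Nat.mod_eq_of_lt (by omega)
  have e2 : 2 * j % (2 * j + 1) = 2 * j := Nat.mod_eq_of_lt (by omega)
  have ej : j % (2 * j + 1) = j := Nat.mod_eq_of_lt (by omega)
  have e3 : 2 * j - j - 1 = j - 1 := by omega
  have c1 : c 1 = (par G x)^[j - 1] y := by
    simp only [c, e1]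
    rw [if_pos (by omega)]
  have c2 : c (2 * j) = (par G x)^[j - 1] y' := by
    simp only [c, e2]
    rw [if_neg (by omega), e3]
  have c3 : c j = y := by
    simp only [c, ej]
    rw [if_pos le_rfl, Nat.sub_self]
    rfl
  have hne' : c 1 ≠ c (2 * j) := by
    rw [c1, c2]
    exact hmin
  have hc := hg.cyc (m := j) (by omega) hper hadj h0 hne'
  refine ⟨iso_of_seq (by omega) (fun a => (hc a).1), ?_, ?_⟩
  · have := (hc j).1 j (by omega)
    have e : j + j = 2 * j := by ring
    rw [e, c2, c3] at this
    rw [this]; omega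
  · have := (hc 1).1 (2 * j - 1) (by omega)
    have e : 1 + (2 * j - 1) = 2 * j := by omega
    rw [e, c2, c1] at this
    rw [this]; omega

/-- isometric cycles (as distance preserving maps) have length `3` or `2 * r + 1` -/
def OnlyR (G : SimpleGraph V) (r : ℕ) : Prop :=
  ∀ n : ℕ, 3 ≤ n → (∃ f : ZMod n → V, ∀ i j, G.dist (f i) (f j) = min (i - j).val (j - i).val) →
    n = 3 ∨ n = 2 * r + 1

theorem hor {r : ℕ} (ho : OnlyR G r) {x y y' : V} (hy : G.Adj y y')
    (hd : G.dist x y = G.dist x y') (hp : par G x y ≠ par G x y') :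
    2 ≤ r ∧ r ≤ G.dist x y ∧ (par G x)^[r] y = (par G x)^[r] y' ∧
      G.dist y ((par G x)^[r - 1] y') = r ∧
      G.dist ((par G x)^[r - 1] y) ((par G x)^[r - 1] y') = 2 := by
  obtain ⟨m, hm⟩ : ∃ m, m = G.dist x y := ⟨_, rfl⟩
  have hmm : (par G x)^[m] y = (par G x)^[m] y' := by
    have e1 := itA hg hm.symm m le_rfl
    have e2 := itA hg (hd ▸ hm.symm) m le_rfl
    rw [Nat.sub_self] at e1 e2
    rw [← hg.eq_of_zero e1, ← hg.eq_of_zero e2]
  have hex : ∃ j, (par G x)^[j] y = (par G x)^[j] y' := ⟨m, hmm⟩
  classical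
  obtain ⟨j, hj, hmin⟩ : ∃ j, ((par G x)^[j] y = (par G x)^[j] y') ∧
      ∀ i < j, ¬ ((par G x)^[i] y = (par G x)^[i] y') :=
    ⟨Nat.find hex, Nat.find_spec hex, fun i hi => Nat.find_min hex hi⟩
  have hjm : j ≤ m := by
    by_contra h
    push Not at h
    exact hmin m h hmm
  have hj2 : 2 ≤ j := by
    by_contra h
    push Not at h
    interval_cases j
    · exact hy.ne hj
    · exact hp (by simpa using hj)
  have M := merge hg hy hd hj2 (by omega) hj (hmin (j - 1) (by omega))
  have hjr : j = r := by
    rcases ho (2 * j + 1) (by omega) M.1 with h | h <;> omega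
  subst hjr
  exact ⟨hj2, by omega, hj, M.2.1, M.2.2⟩

end Pool.Agent.Helper93.GEO
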