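import Pool.Agent.Helper93.GEO.Merge

open Pool.Agent.Helper30.GEO

namespace Pool.Agent.Helper93.GEO

open Finset Classical

variable {V : Type*} [Fintype V] {G : SimpleGraph V} (hg : Geo G)

/-- horizontal neighbours of `y` (seen from `x`) with another parent -/
noncomputable def Hz (G : SimpleGraph V) (x y : V) : Finset V :=
  univ.filter (fun w => G.Adj y w ∧ G.dist x w = G.dist x y ∧ par G x w ≠ par G x y)

/-- children of `y` (seen from `x`) -/
noncomputable def Ch (G : SimpleGraph V) (x y : V) : Finset V :=
  univ.filter (fun w => G.Adj y w ∧ G.dist x w = G.dist x y + 1)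

/-- common neighbours -/
noncomputable def Cm (G : SimpleGraph V) (x y : V) : Finset V :=
  univ.filter (fun w => G.Adj x w ∧ G.Adj y w)

include hg

theorem deg_split {k l : ℕ} (hreg : ∀ v, (univ.filter (fun w => G.Adj v w)).card = k)
    (hl : ∀ u v, G.Adj u v → (Cm G u v).card = l) {x y : V} (hxy : x ≠ y) :
    k = 1 + l + (Hz G x y).card + (Ch G x y).card := by
  obtain ⟨hpa, hpd⟩ := hg.par_spec hxy
  have hlp := hl y (par G x y) hpa
  have hset : univ.filter (fun w => G.Adj y w) =
      ({par G x y} ∪ Cm G y (par G x y)) ∪ (Hz G x y ∪ Ch G x y) := by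
    ext w
    simp only [mem_filter, mem_univ, true_and, mem_union, mem_singleton, Cm, Hz, Ch]
    constructor
    · intro hw
      have l1 := hg.adj_le (r := x) hw
      have l2 := hg.adj_le (r := x) hw.symm
      by_cases h1 : G.dist x w + 1 = G.dist x y
      · left; left
        exact (hg.par_eq hw h1).symm
      · by_cases h2 : G.dist x w = G.dist x y + 1
        · right; right
          exact ⟨hw, h2⟩
        · have h3 : G.dist x w = G.dist x y := by omega
          by_cases h4 : par G x w = par G x y
          · left; right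
            refine ⟨hw, ?_⟩
            have hne : x ≠ w := by
              rintro rfl
              simp at h3
              omega
            rw [← h4]
            exact (hg.par_spec hne).1.symm
          · right; left
            exact ⟨hw, h3, h4⟩
    · rintro ((h | h) | (h | h))
      · rw [h]; exact hpa
      · exact h.1
      · exact h.1
      · exact h.1
  have d1 : Disjoint ({par G x y} : Finset V) (Cm G y (par G x y)) := by
    rw [Finset.disjoint_left]
    intro a ha hb
    simp only [mem_singleton] at ha
    subst ha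
    simp only [Cm, mem_filter] at hb
    exact G.irrefl hb.2.2
  have d2 : Disjoint (Hz G x y) (Ch G x y) := by
    rw [Finset.disjoint_left]
    intro a ha hb
    simp only [Hz, Ch, mem_filter] at ha hb
    omega
  have hcm : ∀ a, a ∈ Cm G y (par G x y) → G.dist x a = G.dist x y ∧ par G x a = par G x y := by
    intro a ha
    simp only [Cm, mem_filter, mem_univ, true_and] at ha
    obtain ⟨h1, h2⟩ := ha
    have l1 := hg.adj_le (r := x) h1
    have l2 := hg.adj_le (r := x) h2.symm
    have l3 : G.dist x a + 1 ≠ G.dist x y := by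
      intro h
      have := hg.uniq x y a (par G x y) h1 hpa h hpd
      subst this
      exact G.irrefl h2
    have l4 := hg.adj_le (r := x) h2
    have l5 := hg.adj_le (r := x) h1.symm
    have e : G.dist x a = G.dist x y := by omega
    exact ⟨e, hg.par_eq h2.symm (by omega)⟩
  have d3 : Disjoint ({par G x y} ∪ Cm G y (par G x y)) (Hz G x y ∪ Ch G x y) := by
    rw [Finset.disjoint_left]
    intro a ha hb
    simp only [mem_union, mem_singleton] at ha hb
    rcases ha with ha | ha
    · subst ha
      rcases hb with hb | hb
      · simp only [Hz, mem_filter] at hb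
        omega
      · simp only [Ch, mem_filter] at hb
        omega
    · obtain ⟨e1, e2⟩ := hcm a ha
      rcases hb with hb | hb
      · simp only [Hz, mem_filter] at hb
        exact hb.2.2.2 e2
      · simp only [Ch, mem_filter] at hb
        omega
  have hc := hreg y
  rw [hset, card_union_of_disjoint d3, card_union_of_disjoint d1, card_union_of_disjoint d2,
    hlp, card_singleton] at hc
  omega

theorem Hz_empty {r : ℕ} (ho : OnlyR G r) {x y : V} (h : G.dist x y < r) : Hz G x y = ∅ := by
  rw [Finset.eq_empty_iff_forall_notMem]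
  intro w hw
  simp only [Hz, mem_filter, mem_univ, true_and] at hw
  have := hor hg ho hw.1 hw.2.1.symm (Ne.symm hw.2.2)
  omega

theorem Hz_up {r : ℕ} (ho : OnlyR G r) (hr : 1 ≤ r) {x y : V} (h : r ≤ G.dist x y) :
    (Hz G x y).card ≤ (Hz G ((par G x)^[r] y) y).card := by
  apply card_le_card
  intro w hw
  simp only [Hz, mem_filter, mem_univ, true_and] at hw ⊢
  obtain ⟨h1, h2, h3⟩ := hw
  obtain ⟨-, -, hz, -, -⟩ := hor hg ho h1 h2.symm (Ne.symm h3)
  have e1 := itPath hg (x := x) (w := y) rfl 0 r (by omega)
  have e2 := itPath hg (x := x) (w := w) rfl 0 r (by omega)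
  have e3 := itPath hg (x := x) (w := y) rfl 1 (r - 1) (by omega)
  have e4 := itPath hg (x := x) (w := w) rfl 1 (r - 1) (by omega)
  rw [Nat.zero_add] at e1 e2
  have er : 1 + (r - 1) = r := by omega
  rw [er] at e3 e4
  rw [← hz] at e2 e4
  simp only [Function.iterate_zero, id_eq, Function.iterate_one] at e1 e2 e3 e4
  have hxy : x ≠ y := by
    rintro rfl
    simp at h
    omega
  have hxw : x ≠ w := by
    rintro rfl
    simp at h2
    omega
  have p1 : par G ((par G x)^[r] y) y = par G x y :=
    hg.par_eq (hg.par_spec hxy).1 (by omega)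
  have p2 : par G ((par G x)^[r] y) w = par G x w :=
    hg.par_eq (hg.par_spec hxw).1 (by omega)
  refine ⟨h1, by omega, ?_⟩
  rw [p1, p2]
  exact h3

theorem Hz_symm {r : ℕ} (ho : OnlyR G r) (hr : 1 ≤ r) {z y : V} (h : G.dist z y = r) :
    (Hz G z y).card ≤ (Hz G y z).card := by
  have hyz : G.dist y z = r := by rw [SimpleGraph.dist_comm]; exact h
  have key : ∀ w ∈ Hz G z y, G.Adj z ((par G z)^[r - 1] w) ∧ G.dist y ((par G z)^[r - 1] w) = r ∧
      G.dist ((par G z)^[r - 1] y) ((par G z)^[r - 1] w) = 2 ∧
      par G ((par G z)^[r - 1] w) y = w := by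
    intro w hw
    simp only [Hz, mem_filter, mem_univ, true_and] at hw
    obtain ⟨h1, h2, h3⟩ := hw
    obtain ⟨-, -, hz, hd1, hd2⟩ := hor hg ho h1 h2.symm (Ne.symm h3)
    have a1 := itAdj hg (x := z) (w := w) rfl (r - 1) (by omega)
    have er : r - 1 + 1 = r := by omega
    rw [er] at a1
    have e0 := itA hg (x := z) (w := w) (m := r) (by omega) r le_rfl
    rw [Nat.sub_self] at e0
    rw [← hg.eq_of_zero e0] at a1
    have e2 := itPath hg (x := z) (w := w) rfl 0 (r - 1) (by omega)
    rw [Nat.zero_add] at e2
    simp only [Function.iterate_zero, id_eq] at e2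
    refine ⟨a1.symm, hd1, hd2, hg.par_eq h1 ?_⟩
    rw [SimpleGraph.dist_comm] at hd1
    omega
  apply card_le_card_of_injOn (fun w => (par G z)^[r - 1] w)
  · intro w hw
    obtain ⟨k1, k2, k3, k4⟩ := key w hw
    simp only [Hz, coe_filter, mem_univ, true_and, Set.mem_setOf_eq]
    refine ⟨k1, by omega, ?_⟩
    -- the parent of `z` seen from `y`
    have a2 := itAdj hg (x := z) (w := y) h (r - 1) (by omega)
    have er : r - 1 + 1 = r := by omega
    rw [er] at a2
    have e0 := itA hg (x := z) (w := y) h r le_rfl
    rw [Nat.sub_self] at e0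
    rw [← hg.eq_of_zero e0] at a2
    have e2 := itPath hg (x := z) (w := y) h 0 (r - 1) (by omega)
    rw [Nat.zero_add] at e2
    simp only [Function.iterate_zero, id_eq] at e2
    rw [SimpleGraph.dist_comm] at e2
    have p1 : par G y z = (par G z)^[r - 1] y := hg.par_eq a2.symm (by omega)
    rw [p1]
    intro hcon
    have hne : y ≠ (par G z)^[r - 1] w := by
      intro hh
      rw [← hh] at k2
      simp at k2
      omega
    have := (hg.par_spec hne).1
    rw [hcon] at this
    have e1 := SimpleGraph.dist_eq_one_iff_adj.2 this.symm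
    omega
  · intro w hw w' hw' he
    have k4 := (key w hw).2.2.2
    have k4' := (key w' hw').2.2.2
    simp only at he
    rw [← k4, ← k4', he]

theorem dist_le {k l r : ℕ} (hr : 1 ≤ r) (ho : OnlyR G r)
    (hreg : ∀ v, (univ.filter (fun w => G.Adj v w)).card = k)
    (hl : ∀ u v, G.Adj u v → (Cm G u v).card = l) (u v : V) : G.dist u v ≤ r := by
  haveI : Nonempty V := ⟨u⟩
  obtain ⟨⟨x, y⟩, hmax⟩ := Finite.exists_max (fun p : V × V => G.dist p.1 p.2)
  have hmax' : ∀ a b, G.dist a b ≤ G.dist x y := fun a b => hmax (a, b)
  by_contra hcon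
  push Not at hcon
  have hD : r < G.dist x y := lt_of_lt_of_le hcon (hmax' u v)
  have hxy : x ≠ y := by
    rintro rfl
    simp at hD
  have s1 := deg_split hg hreg hl hxy
  have hC : Ch G x y = ∅ := by
    rw [Finset.eq_empty_iff_forall_notMem]
    intro w hw
    simp only [Ch, mem_filter, mem_univ, true_and] at hw
    have := hmax' x w
    omega
  rw [hC, card_empty] at s1
  have u1 := Hz_up hg ho hr hD.le
  obtain ⟨z, hz⟩ : ∃ z, z = (par G x)^[r] y := ⟨_, rfl⟩
  rw [← hz] at u1
  have e1 := itPath hg (x := x) (w := y) rfl 0 r (by omega)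
  have e2 := itA hg (x := x) (w := y) rfl r (by omega)
  rw [Nat.zero_add] at e1
  simp only [Function.iterate_zero, id_eq] at e1
  rw [← hz] at e1 e2
  have u2 := Hz_symm hg ho hr e1
  have hyz : y ≠ z := by
    rintro rfl
    simp at e1
    omega
  have s2 := deg_split hg hreg hl hyz
  have hxz : x ≠ z := by
    rintro rfl
    simp at e2
    omega
  obtain ⟨p1, p2⟩ := hg.par_spec hxz
  have hmem : par G x z ∈ Ch G y z := by
    simp only [Ch, mem_filter, mem_univ, true_and]
    refine ⟨p1, ?_⟩
    have t := hg.tri x (par G x z) y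
    have l1 := hg.adj_le (r := y) p1.symm
    rw [SimpleGraph.dist_comm (u := par G x z) (v := y)] at t
    rw [SimpleGraph.dist_comm (u := z) (v := y)] at e1
    omega
  have hpos : 0 < (Ch G y z).card := card_pos.2 ⟨_, hmem⟩
  omega

/-- sphere sizes -/
theorem sphere_card {k l r : ℕ} (ho : OnlyR G r)
    (hreg : ∀ v, (univ.filter (fun w => G.Adj v w)).card = k)
    (hl : ∀ u v, G.Adj u v → (Cm G u v).card = l) (x : V) :
    ∀ i, i + 1 ≤ r → (univ.filter (fun w => G.dist x w = i + 1)).card = k * (k - 1 - l) ^ i := by
  intro i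
  induction i with
  | zero =>
    intro _
    rw [pow_zero, mul_one, ← hreg x]
    congr 1
    ext w
    simp only [mem_filter, mem_univ, true_and, Nat.zero_add]
    exact SimpleGraph.dist_eq_one_iff_adj
  | succ i ih =>
    intro hi
    have ih := ih (by omega)
    have hu : univ.filter (fun w => G.dist x w = i + 1 + 1) =
        (univ.filter (fun w => G.dist x w = i + 1)).biUnion (fun y => Ch G x y) := by
      ext w
      simp only [mem_filter, mem_univ, true_and, mem_biUnion, Ch]
      constructor
      · intro hw
        have hne : x ≠ w := by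
          rintro rfl
          simp at hw
        obtain ⟨p1, p2⟩ := hg.par_spec hne
        exact ⟨par G x w, by omega, p1.symm, by omega⟩
      · rintro ⟨y, h1, h2, h3⟩
        omega
    rw [hu, card_biUnion, sum_const_nat (m := k - 1 - l), ih]
    · ring
    · intro y hy
      simp only [mem_filter, mem_univ, true_and] at hy
      have hne : x ≠ y := by
        rintro rfl
        simp at hy
      have s := deg_split hg hreg hl hne
      rw [Hz_empty hg ho (by omega), card_empty] at s
      omega
    · intro y hy y' hy' hne
      simp only [coe_filter, mem_univ, true_and, Set.mem_setOf_eq] at hy hy'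
      rw [Function.onFun, Finset.disjoint_left]
      intro a ha hb
      simp only [Ch, mem_filter, mem_univ, true_and] at ha hb
      exact hne (hg.uniq x a y y' ha.1.symm hb.1.symm (by omega) (by omega))

theorem total {k l r : ℕ} (hr : 1 ≤ r) (ho : OnlyR G r)
    (hreg : ∀ v, (univ.filter (fun w => G.Adj v w)).card = k)
    (hl : ∀ u v, G.Adj u v → (Cm G u v).card = l) :
    Fintype.card V = 1 + k * ∑ i ∈ range r, (k - 1 - l) ^ i := by
  obtain ⟨x⟩ := hg.conn.nonempty
  have h1 : (univ : Finset V).card =
      ∑ i ∈ range (r + 1), (univ.filter (fun w => G.dist x w = i)).card := by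
    apply card_eq_sum_card_fiberwise
    intro w _
    have := dist_le hg hr ho hreg hl x w
    simp only [coe_range, Set.mem_Iio]
    omega
  rw [Finset.card_univ] at h1
  rw [h1, sum_range_succ']
  have h0 : (univ.filter (fun w => G.dist x w = 0)).card = 1 := by
    rw [card_eq_one]
    refine ⟨x, ?_⟩
    ext w
    simp only [mem_filter, mem_univ, true_and, mem_singleton]
    constructor
    · intro h
      exact (hg.eq_of_zero h).symm
    · rintro rfl
      simp
  rw [h0, mul_sum, add_comm]
  congr 1
  apply sum_congr rfl
  intro i hi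
  rw [mem_range] at hi
  exact sphere_card hg ho hreg hl x i (by omega)

end Pool.Agent.Helper93.GEO
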