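import Pool.Agent.Helper93.GEO.Merge

open Pool.Agent.Helper30.GEO

namespace Pool.Agent.Helper93.GEO

open Finset Classical

section inv

variable {V : Type*} {G : SimpleGraph V} (hg : Geo G)
include hg

/-- the neighbours of `u` farther from `v` do not change when `v` moves along an edge
inside a sphere around `u` -/
theorem far_eq {u v v' w : V} (hv : G.Adj v v') (hd : G.dist u v = G.dist u v')
    (hw : G.Adj u w) (h : G.dist v w = G.dist v u + 1) : G.dist v' w = G.dist v' u + 1 := by
  have hne : u ≠ v := by
    rintro rfl
    simp only [SimpleGraph.dist_self] at hd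
    exact hv.ne (hg.eq_of_zero hd.symm)
  obtain ⟨p1, p2⟩ := hg.par_spec hne
  have c1 := SimpleGraph.dist_comm (G := G) (u := u) (v := v)
  have c2 := SimpleGraph.dist_comm (G := G) (u := u) (v := v')
  have c3 := SimpleGraph.dist_comm (G := G) (u := w) (v := v)
  have c4 := SimpleGraph.dist_comm (G := G) (u := w) (v := v')
  have l1 := hg.adj_le (r := v') hw.symm
  by_contra hcon
  have l2 := hg.adj_le (r := w) hv
  have l3 := hg.adj_le (r := w) p1
  have t := hg.tri w u (par G u v)
  have e1 : G.dist w u = 1 := SimpleGraph.dist_eq_one_iff_adj.2 hw.symm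
  have := hg.uniq w v v' (par G u v) hv p1 (by omega) (by omega)
  rw [this] at hd
  omega

/-- quantities attached to the pairs at distance `d` which do not change under the moves -/
structure Inv (G : SimpleGraph V) (d : ℕ) {α : Type} (β : V → V → α) : Prop where
  a : ∀ u v v', G.dist u v = d → G.dist u v' = d → G.Adj v v' → β u v = β u v'
  b : ∀ u u' v, G.dist u v = d → G.dist u' v = d → G.Adj u u' → β u v = β u' v
  c : ∀ u u' v v', G.Adj u u' → G.Adj v v' → G.dist u v = d → G.dist u' v' = d →
    G.dist u v' = d + 1 → β u v = β u' v'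
  s : ∀ u v, G.dist u v = d → β u v = β v u

/-- no dead end in only one direction -/
def DeadSym (G : SimpleGraph V) : Prop :=
  ∀ x y, (∃ w, G.Adj y w ∧ G.dist x w = G.dist x y + 1) →
    ∃ w, G.Adj x w ∧ G.dist y w = G.dist y x + 1

theorem const_of_inv (hs : DeadSym G) : ∀ (d : ℕ) (α : Type) (β : V → V → α), Inv G d β →
    ∀ u v u' v', G.dist u v = d → G.dist u' v' = d → β u v = β u' v' := by
  intro d
  induction d with
  | zero =>
    intro α β hb u v u' v' h h'
    have e := hg.eq_of_zero h
    have e' := hg.eq_of_zero h'
    subst e e'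
    have key : ∀ (a b : V) (w : G.Walk a b), β a a = β b b := by
      intro a b w
      induction w with
      | nil => rfl
      | cons ha _ ih =>
        refine (hb.c _ _ _ _ ha ha ?_ ?_ ?_).trans ih
        · simp
        · simp
        · exact SimpleGraph.dist_eq_one_iff_adj.2 ha
    obtain ⟨w⟩ := hg.conn.preconnected u u'
    exact key u u' w
  | succ d ih =>
    intro α β hb u v u' v' h h'
    let B : V → V → Set α := fun w v =>
      {a | (∃ y, G.Adj v y ∧ G.dist w y = G.dist w v + 1 ∧ a = β w y) ∨
        (∃ x, G.Adj w x ∧ G.dist v x = G.dist v w + 1 ∧ a = β x v)}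
    -- an element on the left and an element on the right agree
    have lr : ∀ w v x y, G.dist w v = d → G.Adj v y → G.dist w y = G.dist w v + 1 →
        G.Adj w x → G.dist v x = G.dist v w + 1 → β x v = β w y := by
      intro w v x y hwv hy hy' hx hx'
      have c1 := SimpleGraph.dist_comm (G := G) (u := w) (v := v)
      have c2 := SimpleGraph.dist_comm (G := G) (u := v) (v := x)
      have l1 := hg.adj_le (r := x) hy.symm
      have l2 := hg.adj_le (r := x) hy
      by_cases h2 : G.dist x y = d + 2
      · exact hb.c x w v y hx.symm hy (by omega) (by omega) (by omega)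
      · by_cases h1 : G.dist x y = d + 1
        · have e1 := hb.a x v y (by omega) (by omega) hy
          have e2 := hb.b x w y (by omega) (by omega) hx.symm
          exact e1.trans e2
        · have h0 : G.dist x y = d := by omega
          by_cases hd0 : d = 0
          · subst hd0
            have e1 := hg.eq_of_zero h0
            have e2 := hg.eq_of_zero hwv
            subst e1 e2
            exact hb.s _ _ (by omega)
          · exfalso
            have hne : w ≠ v := by
              rintro rfl
              simp at hwv
              omega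
            obtain ⟨p1, p2⟩ := hg.par_spec hne
            have t := hg.tri x w (par G w v)
            have e1 : G.dist x w = 1 := SimpleGraph.dist_eq_one_iff_adj.2 hx.symm
            have l3 := hg.adj_le (r := x) p1
            have := hg.uniq x v y (par G w v) hy p1 (by omega) (by omega)
            rw [this] at hy'
            omega
    -- the set has at most one element
    have sub : ∀ w v a b, G.dist w v = d → a ∈ B w v → b ∈ B w v → a = b := by
      intro w v a b hwv ha hb'
      rcases ha with ⟨y, y1, y2, y3⟩ | ⟨x, x1, x2, x3⟩ <;>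
        rcases hb' with ⟨y', y1', y2', y3'⟩ | ⟨x', x1', x2', x3'⟩
      · obtain ⟨x, x1, x2⟩ := hs w v ⟨y, y1, y2⟩
        rw [y3, y3', ← lr w v x y hwv y1 y2 x1 x2, ← lr w v x y' hwv y1' y2' x1 x2]
      · rw [y3, x3', lr w v x' y hwv y1 y2 x1' x2']
      · rw [x3, y3', lr w v x y' hwv y1' y2' x1 x2]
      · obtain ⟨y, y1, y2⟩ := hs v w ⟨x, x1, x2⟩
        rw [x3, x3', lr w v x y hwv y1 y2 x1 x2, lr w v x' y hwv y1 y2 x1' x2']
    have sub' : ∀ w v w' v' a, G.dist w v = d → G.dist w' v' = d → a ∈ B w v → a ∈ B w' v' →
        B w v = B w' v' := by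
      intro w v w' v' a h1 h2 ha ha'
      ext b
      constructor
      · intro hb'
        rw [sub w v b a h1 hb' ha]; exact ha'
      · intro hb'
        rw [sub w' v' b a h2 hb' ha']; exact ha
    have hsymm : ∀ w v, G.dist w v = d → B w v = B v w := by
      intro w v hwv
      have c1 := SimpleGraph.dist_comm (G := G) (u := w) (v := v)
      ext a
      constructor
      · rintro (⟨y, y1, y2, y3⟩ | ⟨x, x1, x2, x3⟩)
        · exact Or.inr ⟨y, y1, y2, y3.trans (hb.s _ _ (by omega))⟩
        · refine Or.inl ⟨x, x1, x2, x3.trans (hb.s _ _ ?_)⟩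
          rw [SimpleGraph.dist_comm]; omega
      · rintro (⟨y, y1, y2, y3⟩ | ⟨x, x1, x2, x3⟩)
        · exact Or.inr ⟨y, y1, y2, y3.trans (hb.s _ _ (by omega))⟩
        · refine Or.inl ⟨x, x1, x2, x3.trans (hb.s _ _ ?_)⟩
          rw [SimpleGraph.dist_comm]; omega
    have hA : ∀ w v v', G.dist w v = d → G.dist w v' = d → G.Adj v v' → B w v = B w v' := by
      intro w v v' h1 h2 h3
      -- an element on the left of one is an element on the left of the other
      have st : ∀ v v', G.dist w v = d → G.dist w v' = d → G.Adj v v' → ∀ a, a ∈ B w v →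
          a ∈ B w v' := by
        intro v v' h1 h2 h3 a ha
        have hx : ∃ x, G.Adj w x ∧ G.dist v x = G.dist v w + 1 := by
          rcases ha with ⟨y, y1, y2, y3⟩ | ⟨x, x1, x2, x3⟩
          · exact hs w v ⟨y, y1, y2⟩
          · exact ⟨x, x1, x2⟩
        obtain ⟨x, x1, x2⟩ := hx
        have hfar := far_eq hg h3 (by omega) x1 x2
        have m1 : β x v ∈ B w v := Or.inr ⟨x, x1, x2, rfl⟩
        have m2 : β x v' ∈ B w v' := Or.inr ⟨x, x1, hfar, rfl⟩
        have c1 := SimpleGraph.dist_comm (G := G) (u := w) (v := v)
        have c2 := SimpleGraph.dist_comm (G := G) (u := w) (v := v')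
        have c3 := SimpleGraph.dist_comm (G := G) (u := x) (v := v)
        have c4 := SimpleGraph.dist_comm (G := G) (u := x) (v := v')
        have e := hb.a x v v' (by omega) (by omega) h3
        rw [sub w v a _ h1 ha m1, e]
        exact m2
      ext a
      exact ⟨st v v' h1 h2 h3 a, st v' v h2 h1 h3.symm a⟩
    have hInv : Inv G d B := by
      refine ⟨hA, ?_, ?_, hsymm⟩
      · intro w w' v h1 h2 h3
        rw [hsymm w v h1, hsymm w' v h2]
        rw [SimpleGraph.dist_comm] at h1 h2
        exact hA v w w' h1 h2 h3
      · intro w w' v v' h1 h2 h3 h4 h5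
        have c1 := SimpleGraph.dist_comm (G := G) (u := w) (v := v')
        have c2 := SimpleGraph.dist_comm (G := G) (u := w') (v := v')
        exact sub' w v w' v' (β w v') h3 h4 (Or.inl ⟨v', h2, by omega, rfl⟩)
          (Or.inr ⟨w, h1.symm, by omega, rfl⟩)
    have hc := ih (Set α) B hInv
    have hne : u ≠ v := by
      rintro rfl
      simp at h
    have hne' : u' ≠ v' := by
      rintro rfl
      simp at h'
    obtain ⟨p1, p2⟩ := hg.par_spec hne
    obtain ⟨p1', p2'⟩ := hg.par_spec hne'
    have e := hc u (par G u v) u' (par G u' v') (by omega) (by omega)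
    have m1 : β u v ∈ B u (par G u v) := Or.inl ⟨v, p1.symm, by omega, rfl⟩
    have m2 : β u' v' ∈ B u' (par G u' v') := Or.inl ⟨v', p1'.symm, by omega, rfl⟩
    rw [e] at m1
    exact sub u' (par G u' v') _ _ (by omega) m1 m2

end inv

section ms

variable {V : Type*} [Fintype V] {G : SimpleGraph V} (hg : Geo G)

/-- the neighbours of `v` farther from `u` -/
noncomputable def Far (G : SimpleGraph V) (u v : V) : Finset V :=
  univ.filter (fun w => G.Adj v w ∧ G.dist u w = G.dist u v + 1)

/-- the neighbours `w` of `v` such that the geodesics from `u` to `v` and `w` have equal length and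
only `u` in common -/
noncomputable def Ms (G : SimpleGraph V) (u v : V) : Finset V :=
  univ.filter (fun w => G.Adj v w ∧ G.dist u w = G.dist u v ∧
    G.dist (par G v u) w = G.dist u v)

include hg

theorem Ms_le {u v : V} (huv : u ≠ v) : (Ms G u v).card ≤ (Ms G v u).card := by
  obtain ⟨f1, f2⟩ := hg.par_spec huv.symm
  obtain ⟨g1, g2⟩ := hg.par_spec huv
  have c0 := SimpleGraph.dist_comm (G := G) (u := u) (v := v)
  have key : ∀ w ∈ Ms G u v, par G w u ∈ Ms G v u ∧ par G (par G w u) v = w := by
    intro w hw
    simp only [Ms, mem_filter, mem_univ, true_and] at hw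
    obtain ⟨h1, h2, h3⟩ := hw
    have hwu : w ≠ u := by
      rintro rfl
      simp at h2
      exact huv (hg.eq_of_zero h2.symm)
    obtain ⟨t1, t2⟩ := hg.par_spec hwu
    obtain ⟨t, ht⟩ : ∃ t, t = par G w u := ⟨_, rfl⟩
    rw [← ht] at t1 t2 ⊢
    have c1 := SimpleGraph.dist_comm (G := G) (u := w) (v := u)
    have c2 := SimpleGraph.dist_comm (G := G) (u := w) (v := t)
    have c3 := SimpleGraph.dist_comm (G := G) (u := v) (v := t)
    -- distance from v to t
    have l1 := hg.adj_le (r := t) h1
    have l2 := hg.adj_le (r := v) t1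
    have hvt : G.dist v t = G.dist v u := by
      by_contra hcon
      have hlt : G.dist v t + 1 = G.dist v u := by omega
      have := hg.uniq v u t (par G v u) t1 f1 hlt f2
      rw [← this] at h3
      omega
    have hpar : par G t v = w := hg.par_eq h1 (by omega)
    refine ⟨?_, hpar⟩
    simp only [Ms, mem_filter, mem_univ, true_and]
    refine ⟨t1, hvt, ?_⟩
    have c4 := SimpleGraph.dist_comm (G := G) (u := par G u v) (v := u)
    have c5 := SimpleGraph.dist_comm (G := G) (u := par G u v) (v := t)
    have l3 := hg.adj_le (r := par G u v) t1.symm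
    have l4 := hg.adj_le (r := t) g1
    by_contra hcon
    have hlt : G.dist t (par G u v) + 1 = G.dist t v := by omega
    have e := hg.par_eq g1 hlt
    rw [hpar] at e
    rw [← e] at g2
    omega
  apply card_le_card_of_injOn (fun w => par G w u)
  · intro w hw
    exact (key w hw).1
  · intro w hw w' hw' he
    simp only at he
    rw [← (key w hw).2, ← (key w' hw').2, he]

theorem Ms_symm {u v : V} (huv : u ≠ v) : (Ms G u v).card = (Ms G v u).card :=
  le_antisymm (Ms_le hg huv) (Ms_le hg huv.symm)

theorem Far_split {u v : V} (huv : 2 ≤ G.dist u v) :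
    (Far G (par G v u) v).card = (Far G u v).card + (Ms G u v).card := by
  have hne : u ≠ v := by
    rintro rfl
    simp at huv
  obtain ⟨f1, f2⟩ := hg.par_spec hne.symm
  have c0 := SimpleGraph.dist_comm (G := G) (u := u) (v := v)
  have c1 := SimpleGraph.dist_comm (G := G) (u := par G v u) (v := v)
  rw [← card_union_of_disjoint]
  · congr 1
    ext w
    simp only [Far, Ms, mem_union, mem_filter, mem_univ, true_and]
    constructor
    · rintro ⟨h1, h2⟩
      have l1 := hg.adj_le (r := u) h1
      have l2 := hg.adj_le (r := u) h1.symm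
      by_cases h3 : G.dist u w = G.dist u v + 1
      · exact Or.inl ⟨h1, h3⟩
      · by_cases h4 : G.dist u w = G.dist u v
        · exact Or.inr ⟨h1, h4, by omega⟩
        · exfalso
          have h5 : G.dist u w + 1 = G.dist u v := by omega
          -- the parent of v seen from f is the parent of v seen from u
          have hfv : par G v u ≠ v := by
            intro hh
            rw [hh] at f2
            simp at f2
            omega
          obtain ⟨q1, q2⟩ := hg.par_spec hfv
          have t := hg.tri u (par G v u) (par G (par G v u) v)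
          have e1 : G.dist u (par G v u) = 1 := SimpleGraph.dist_eq_one_iff_adj.2 f1
          have l3 := hg.adj_le (r := u) q1
          have := hg.uniq u v w (par G (par G v u) v) h1 q1 h5 (by omega)
          rw [← this] at q2
          omega
    · rintro (⟨h1, h2⟩ | ⟨h1, h2, h3⟩)
      · refine ⟨h1, ?_⟩
        have l1 := hg.adj_le (r := par G v u) h1.symm
        have t := hg.tri u (par G v u) w
        have e1 : G.dist u (par G v u) = 1 := SimpleGraph.dist_eq_one_iff_adj.2 f1
        omega
      · exact ⟨h1, by omega⟩
  · rw [Finset.disjoint_left]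
    intro a ha hb
    simp only [Far, Ms, mem_filter] at ha hb
    omega

/-- the extension numbers depend only on the distance -/
theorem Far_const {k : ℕ} (hreg : ∀ v, (univ.filter (fun w => G.Adj v w)).card = k)
    (hs : ∀ x y, (Far G x y).card = (Far G y x).card) {x y x' y' : V}
    (h : G.dist x y = G.dist x' y') : (Far G x y).card = (Far G x' y').card := by
  have hdead : DeadSym G := by
    intro a b ⟨w, h1, h2⟩
    have hpos : 0 < (Far G a b).card := card_pos.2 ⟨w, by simp [Far, h1, h2]⟩
    rw [hs a b] at hpos
    obtain ⟨w', hw'⟩ := card_pos.1 hpos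
    simp only [Far, mem_filter, mem_univ, true_and] at hw'
    exact ⟨w', hw'⟩
  have hbb : ∀ u u' v, G.dist u v = G.dist u' v → G.Adj u u' →
      (Far G u v).card = (Far G u' v).card := by
    intro u u' v h1 h2
    have c1 := SimpleGraph.dist_comm (G := G) (u := u) (v := v)
    have c2 := SimpleGraph.dist_comm (G := G) (u := u') (v := v)
    congr 1
    ext w
    simp only [Far, mem_filter, mem_univ, true_and]
    constructor
    · rintro ⟨a1, a2⟩
      exact ⟨a1, far_eq hg h2 (by omega) a1 a2⟩
    · rintro ⟨a1, a2⟩
      exact ⟨a1, far_eq hg h2.symm (by omega) a1 a2⟩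
  have hInv : ∀ d, Inv G d (fun u v => (Far G u v).card) := by
    intro d
    refine ⟨?_, ?_, ?_, ?_⟩
    · intro u v v' h1 h2 h3
      rw [hs u v, hs u v']
      apply hbb
      · rw [SimpleGraph.dist_comm (u := v), SimpleGraph.dist_comm (u := v')]
        omega
      · exact h3
    · intro u u' v h1 h2 h3
      exact hbb u u' v (by omega) h3
    · intro u u' v v' h1 h2 h3 h4 h5
      by_cases hd : d = 0
      · subst hd
        have e1 := hg.eq_of_zero h3
        have e2 := hg.eq_of_zero h4
        subst e1 e2
        have key : ∀ a, (Far G a a).card = k := by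
          intro a
          rw [← hreg a]
          congr 1
          ext w
          simp only [Far, mem_filter, mem_univ, true_and, SimpleGraph.dist_self, Nat.zero_add]
          constructor
          · exact fun hh => hh.1
          · exact fun hh => ⟨hh, SimpleGraph.dist_eq_one_iff_adj.2 hh⟩
        rw [key, key]
      · have c1 := SimpleGraph.dist_comm (G := G) (u := u) (v := v')
        have c2 := SimpleGraph.dist_comm (G := G) (u := u') (v := v')
        have p1 : par G v' u = u' := hg.par_eq h1 (by omega)
        have p2 : par G u v' = v := hg.par_eq h2.symm (by omega)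
        have s1 := Far_split hg (u := u) (v := v') (by omega)
        have s2 := Far_split hg (u := v') (v := u) (by omega)
        rw [p1] at s1
        rw [p2] at s2
        have hne : u ≠ v' := by
          rintro rfl
          simp at h5
        have m := Ms_symm hg hne
        have t1 := hs u v'
        have t2 := hs u v
        omega
    · intro u v _
      exact hs u v
  exact const_of_inv hg hdead (G.dist x y) ℕ _ (hInv _) x y x' y' rfl h.symm

/-- a pair of vertices with no farther neighbour at distance at least two lies on an isometric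
cycle, as soon as dead ends are symmetric -/
theorem iso_of_dead (hdead : DeadSym G) {x y : V} (hD : 2 ≤ G.dist x y)
    (h : Far G x y = ∅) :
    ∃ f : ZMod (2 * G.dist x y + 1) → V,
      ∀ i i', G.dist (f i) (f i') = min (i - i').val (i' - i).val := by
  have hne : x ≠ y := by
    rintro rfl
    simp at hD
  obtain ⟨f1, f2⟩ := hg.par_spec hne.symm
  have c0 := SimpleGraph.dist_comm (G := G) (u := x) (v := y)
  have s := Far_split hg hD
  rw [h, card_empty, Nat.zero_add] at s
  have c1 := SimpleGraph.dist_comm (G := G) (u := par G y x) (v := y)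
  obtain ⟨w', w1, w2⟩ := hdead y (par G y x) ⟨x, f1.symm, by omega⟩
  have hpos : 0 < (Far G (par G y x) y).card := card_pos.2 ⟨w', by simp [Far, w1, w2]⟩
  rw [s] at hpos
  obtain ⟨w, hw⟩ := card_pos.1 hpos
  simp only [Ms, mem_filter, mem_univ, true_and] at hw
  obtain ⟨h1, h2, h3⟩ := hw
  have e1 := itA hg (x := x) (w := y) rfl (G.dist x y) le_rfl
  have e2 := itA hg (x := x) (w := w) h2 (G.dist x y) le_rfl
  rw [Nat.sub_self] at e1 e2
  refine (merge hg h1 h2.symm hD le_rfl ?_ ?_).1
  · rw [← hg.eq_of_zero e1, ← hg.eq_of_zero e2]
  · intro hcon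
    have a1 := itAdj hg (x := x) (w := y) rfl (G.dist x y - 1) (by omega)
    have er : G.dist x y - 1 + 1 = G.dist x y := by omega
    rw [er, ← hg.eq_of_zero e1] at a1
    have b1 := itPath hg (x := x) (w := y) rfl 0 (G.dist x y - 1) (by omega)
    have b2 := itPath hg (x := x) (w := w) h2 0 (G.dist x y - 1) (by omega)
    rw [Nat.zero_add] at b1 b2
    simp only [Function.iterate_zero, id_eq] at b1 b2
    rw [SimpleGraph.dist_comm] at b1
    have pe : par G y x = (par G x)^[G.dist x y - 1] y := hg.par_eq a1.symm (by omega)
    rw [pe, hcon, b2] at h3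
    omega

end ms

end Pool.Agent.Helper93.GEO
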